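import Pool.Agent.X91.NU.Mass
import Pool.Agent.Y967.MU.BUMP
import Pool.Agent.Y967.MU.SER
import Pool.Agent.Y967.MU.CAN1
import Pool.Agent.Y967.MU.CAN2
import Pool.Agent.Y967.MU.BDD
import Pool.Agent.Y967.MU.VOL

/-!
The Moran set.
-/

set_option autoImplicit false

open MeasureTheory Filter Topology Set
open scoped ENNReal

namespace Pool.Agent.X91.NU

open Pool.Agent.Y967.MU

open Classical in
/-- The digit sets. -/
noncomputable def DD (nn : ℕ → ℕ) (n : ℕ) : Finset ℕ :=
  if n ∈ range nn then {(c n : ℕ)} else {0, 1}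

theorem prod_two (n : ℕ) : ∏ i ∈ Finset.range (n + 1), (((fun _ : ℕ => 2) i : ℕ) : ℝ) = 2 ^ (n + 1) := by
  simp

theorem DD_ok (nn : ℕ → ℕ) : Ok (fun _ => 2) (DD nn) := by
  refine ⟨fun _ => le_refl _, fun n => ⟨?_, ?_⟩⟩
  · unfold DD
    split_ifs <;> simp
  · intro d hd
    unfold DD at hd
    show d < 2
    split_ifs at hd
    · rw [Finset.mem_singleton] at hd
      rw [hd]
      exact (c n).2
    · simp at hd
      omega

theorem X_mem_moran (nn : ℕ → ℕ) (y : ℝ) : X (range nn) y ∈ moranSet (fun _ => 2) (DD nn) := by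
  refine ⟨fun n => (md (range nn) y n : ℕ), ?_, ?_⟩
  · intro n
    by_cases h : n ∈ range nn
    · simp only [DD, md, if_pos h, Finset.mem_singleton]
    · have := (Real.digits y 2 n).2
      simp only [DD, md, if_neg h, Finset.mem_insert, Finset.mem_singleton]
      omega
  · have h1 := (Real.summable_ofDigitsTerm (digits := md (range nn) y)).hasSum
    have h2 : (fun n => ((md (range nn) y n : ℕ) : ℝ) /
        ∏ i ∈ Finset.range (n + 1), (((fun _ : ℕ => 2) i : ℕ) : ℝ)) =
        Real.ofDigitsTerm (md (range nn) y) := by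
      funext n
      rw [prod_two]
      unfold Real.ofDigitsTerm
      rw [div_eq_mul_inv]
      norm_num
    rw [h2]
    exact h1

theorem DD_null {nn : ℕ → ℕ} (hmono : StrictMono nn) : Null (fun _ => 2) (DD nn) := by
  classical
  unfold Null
  have hf : ∀ i, (((DD nn i).card : ℝ) / (((fun _ : ℕ => 2) i : ℕ) : ℝ)) =
      if i ∈ range nn then 1 / 2 else 1 := by
    intro i
    unfold DD
    by_cases h : i ∈ range nn
    · rw [if_pos h, if_pos h]
      simp
    · rw [if_neg h, if_neg h]
      norm_num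
  simp_rw [hf]
  rw [Metric.tendsto_atTop]
  intro ε hε
  obtain ⟨k, hk⟩ := exists_pow_lt_of_lt_one hε (by norm_num : (1 / 2 : ℝ) < 1)
  refine ⟨nn k, fun m hm => ?_⟩
  have hnn : ∀ i ∈ Finset.range m, (0 : ℝ) ≤ if i ∈ range nn then 1 / 2 else 1 := by
    intro i _
    split_ifs <;> norm_num
  rw [dist_zero_right, Real.norm_of_nonneg (Finset.prod_nonneg hnn)]
  refine lt_of_le_of_lt ?_ hk
  have hsub : (Finset.range k).image nn ⊆ Finset.range m := by
    intro i hi
    obtain ⟨l, hl, rfl⟩ := Finset.mem_image.mp hi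
    rw [Finset.mem_range] at hl ⊢
    exact (hmono hl).trans_le hm
  calc ∏ i ∈ Finset.range m, (if i ∈ range nn then (1 / 2 : ℝ) else 1)
      = (∏ i ∈ Finset.range m \ (Finset.range k).image nn, (if i ∈ range nn then (1 / 2 : ℝ) else 1)) *
        ∏ i ∈ (Finset.range k).image nn, (if i ∈ range nn then (1 / 2 : ℝ) else 1) :=
        (Finset.prod_sdiff hsub).symm
    _ ≤ 1 * ∏ i ∈ (Finset.range k).image nn, (if i ∈ range nn then (1 / 2 : ℝ) else 1) := by
        refine mul_le_mul_of_nonneg_right ?_ ?_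
        · refine Finset.prod_le_one (fun i _ => ?_) (fun i _ => ?_) <;> split_ifs <;> norm_num
        · exact Finset.prod_nonneg fun i _ => by split_ifs <;> norm_num
    _ = (1 / 2) ^ k := by
        rw [one_mul, Finset.prod_image (fun a _ b _ h => hmono.injective h)]
        rw [Finset.prod_congr rfl (fun i _ => if_pos (mem_range_self i))]
        simp

theorem moran_bounds {nn : ℕ → ℕ} (hmono : StrictMono nn) (h0 : nn 0 = 0) (x : ℝ)
    (hx : x ∈ moranSet (fun _ => 2) (DD nn)) : 0 < x ∧ x < 1 := by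
  obtain ⟨d, hd, hs⟩ := hx
  simp_rw [prod_two] at hs
  have hd1 : ∀ n, d n ≤ 1 := by
    intro n
    have : d n < 2 := (DD_ok nn).2 n |>.2 (d n) (hd n)
    omega
  have hgeo : HasSum (fun n : ℕ => (1 : ℝ) / 2 ^ (n + 1)) 1 := by
    have h1 := hasSum_geometric_two.mul_left (1 / 2)
    rw [show (1 / 2 : ℝ) * 2 = 1 by norm_num] at h1
    have h2 : (fun n : ℕ => (1 / 2 : ℝ) * (1 / 2) ^ n) = fun n : ℕ => (1 : ℝ) / 2 ^ (n + 1) := by
      funext n
      rw [pow_succ, one_div_pow]
      ring
    rwa [h2] at h1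
  constructor
  · have h1 : d 0 = 1 := by
      have := hd 0
      unfold DD at this
      rw [if_pos ⟨0, h0⟩, Finset.mem_singleton] at this
      rw [this]
      rfl
    have h2 : (d 0 : ℝ) / 2 ^ (0 + 1) ≤ x := le_hasSum hs 0 (fun n _ => by positivity)
    rw [h1] at h2
    norm_num at h2
    linarith
  · have h1 : d (nn 1) = 0 := by
      have := hd (nn 1)
      unfold DD at this
      rw [if_pos ⟨1, rfl⟩, Finset.mem_singleton] at this
      rw [this]
      unfold c
      have : nn 1 ≠ 0 := by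
        have := hmono (by norm_num : 0 < 1)
        omega
      rw [if_neg this]
      rfl
    refine hasSum_lt (i := nn 1) (fun n => ?_) ?_ hs hgeo
    · have h2 : ((d n : ℕ) : ℝ) ≤ 1 := by exact_mod_cast hd1 n
      exact div_le_div_of_nonneg_right h2 (by positivity)
    · rw [h1]
      simp

/-- Uniqueness in complex form. -/
theorem unique_complex (K : Set ℝ) (hK : IsSetOfUniqueness K) (hK01 : ∀ x ∈ K, 0 < x ∧ x < 1)
    (a : ℤ → ℂ)
    (ha : ∀ x : ℝ, (∀ m : ℤ, x + (m : ℝ) ∉ K) →
      Tendsto (fun N : ℕ => ∑ n ∈ Finset.Icc (-(N : ℤ)) (N : ℤ),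
        a n * Complex.exp (2 * (Real.pi : ℂ) * Complex.I * (n : ℂ) * (x : ℂ))) atTop (𝓝 0))
    (n : ℤ) : a n = 0 := by
  have hx : ∀ x ∈ Set.Icc (0 : ℝ) 1 \ K, ∀ m : ℤ, x + (m : ℝ) ∉ K := by
    rintro x ⟨hx1, hx2⟩ m hm
    have h1 := hK01 _ hm
    rcases lt_trichotomy m 0 with h | h | h
    · have : (m : ℝ) ≤ -1 := by exact_mod_cast (by omega : m ≤ -1)
      linarith [hx1.2]
    · subst h
      simp at hm
      exact hx2 hm
    · have : (1 : ℝ) ≤ m := by exact_mod_cast (by omega : 1 ≤ m)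
      linarith [hx1.1]
  -- the symmetric partial sums
  set p : ℕ → ℂ := fun n => if n = 0 then a 0 else a n + a (-n) with hp
  set q : ℕ → ℂ := fun n => Complex.I * (a n - a (-n)) with hq
  have hsum : ∀ (x : ℝ) (N : ℕ), ∑ n ∈ Finset.Icc (-(N : ℤ)) (N : ℤ),
      a n * Complex.exp (2 * (Real.pi : ℂ) * Complex.I * (n : ℂ) * (x : ℂ)) =
      ∑ n ∈ Finset.range (N + 1), (p n * (Real.cos (2 * Real.pi * n * x) : ℂ) +
        q n * (Real.sin (2 * Real.pi * n * x) : ℂ)) := by
    intro x N
    induction N with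
    | zero => simp [hp, hq]
    | succ N ih =>
      have h1 : Finset.Icc (-((N + 1 : ℕ) : ℤ)) ((N + 1 : ℕ) : ℤ) =
          insert (-((N + 1 : ℕ) : ℤ)) (insert ((N + 1 : ℕ) : ℤ) (Finset.Icc (-(N : ℤ)) (N : ℤ))) := by
        ext z
        simp only [Finset.mem_Icc, Finset.mem_insert]
        push_cast
        omega
      rw [h1, Finset.sum_insert, Finset.sum_insert, ih, Finset.sum_range_succ _ (N + 1)]
      · have e1 : Complex.exp (2 * (Real.pi : ℂ) * Complex.I * (((N + 1 : ℕ) : ℤ) : ℂ) * (x : ℂ)) =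
            (Real.cos (2 * Real.pi * ((N + 1 : ℕ) : ℝ) * x) : ℂ) +
              (Real.sin (2 * Real.pi * ((N + 1 : ℕ) : ℝ) * x) : ℂ) * Complex.I := by
          rw [show (2 * (Real.pi : ℂ) * Complex.I * (((N + 1 : ℕ) : ℤ) : ℂ) * (x : ℂ)) =
            ((2 * Real.pi * ((N + 1 : ℕ) : ℝ) * x : ℝ) : ℂ) * Complex.I by push_cast; ring,
            Complex.exp_mul_I]
          simp only [Complex.ofReal_cos, Complex.ofReal_sin]
        have e2 : Complex.exp (2 * (Real.pi : ℂ) * Complex.I * ((-((N + 1 : ℕ) : ℤ) : ℤ) : ℂ) * (x : ℂ)) =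
            (Real.cos (2 * Real.pi * ((N + 1 : ℕ) : ℝ) * x) : ℂ) -
              (Real.sin (2 * Real.pi * ((N + 1 : ℕ) : ℝ) * x) : ℂ) * Complex.I := by
          rw [show (2 * (Real.pi : ℂ) * Complex.I * ((-((N + 1 : ℕ) : ℤ) : ℤ) : ℂ) * (x : ℂ)) =
            (-((2 * Real.pi * ((N + 1 : ℕ) : ℝ) * x : ℝ) : ℂ)) * Complex.I by push_cast; ring,
            Complex.exp_mul_I, Complex.cos_neg, Complex.sin_neg]
          simp only [Complex.ofReal_cos, Complex.ofReal_sin]
          ring
        rw [e1, e2, hp, hq]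
        simp only [Nat.add_eq_zero_iff, one_ne_zero, and_false, if_false]
        ring
      · simp only [Finset.mem_Icc]
        push_cast
        omega
      · simp only [Finset.mem_insert, Finset.mem_Icc]
        push_cast
        omega
  have hlim : ∀ x ∈ Set.Icc (0 : ℝ) 1 \ K, Tendsto (fun N : ℕ => ∑ n ∈ Finset.range N,
      (p n * (Real.cos (2 * Real.pi * n * x) : ℂ) + q n * (Real.sin (2 * Real.pi * n * x) : ℂ)))
      atTop (𝓝 0) := by
    intro x hx'
    rw [← tendsto_add_atTop_iff_nat 1]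
    have h1 := ha x (hx x hx')
    simp_rw [hsum] at h1
    exact h1
  have hre := hK (fun n => (p n).re) (fun n => (q n).re) (by
    intro x hx'
    have h1 := (Complex.continuous_re.tendsto 0).comp (hlim x hx')
    rw [Complex.zero_re] at h1
    refine h1.congr fun N => ?_
    simp only [Function.comp, Complex.re_sum, Complex.add_re, Complex.re_mul_ofReal])
  have him := hK (fun n => (p n).im) (fun n => (q n).im) (by
    intro x hx'
    have h1 := (Complex.continuous_im.tendsto 0).comp (hlim x hx')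
    rw [Complex.zero_im] at h1
    refine h1.congr fun N => ?_
    simp only [Function.comp, Complex.im_sum, Complex.add_im, Complex.im_mul_ofReal])
  have hp0 : ∀ n, p n = 0 := fun n => Complex.ext (hre.1 n) (him.1 n)
  have hq0 : ∀ n, 1 ≤ n → q n = 0 := fun n hn => Complex.ext (hre.2 n hn) (him.2 n hn)
  have hpos : ∀ n : ℕ, 1 ≤ n → a n = 0 ∧ a (-n) = 0 := by
    intro n hn
    have h1 := hp0 n
    have h2 := hq0 n hn
    rw [hp] at h1
    rw [hq] at h2
    simp only [show n ≠ 0 by omega, if_false] at h1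
    have h3 : a n - a (-n) = 0 := by
      rcases mul_eq_zero.mp h2 with h | h
      · exact absurd h Complex.I_ne_zero
      · exact h
    constructor
    · linear_combination (h1 + h3) / 2
    · linear_combination (h1 - h3) / 2
  rcases lt_trichotomy n 0 with h | h | h
  · have := (hpos n.natAbs (by omega)).2
    rwa [show (-((n.natAbs : ℕ) : ℤ)) = n by omega] at this
  · subst h
    have := hp0 0
    rw [hp] at this
    simpa using this
  · have := (hpos n.natAbs (by omega)).1
    rwa [show ((n.natAbs : ℕ) : ℤ) = n by omega] at this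

end Pool.Agent.X91.NU
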