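import Pool.Agent.X91.NU.Leb

/-!
Random points with prescribed digits at sparse positions.
-/

set_option autoImplicit false

open MeasureTheory Filter Topology Set

namespace Pool.Agent.X91.NU

open Pool.Agent.H493R3 (ee ee_norm ee_add ee_neg ee_int)

/-- The forced digits. -/
def c (n : ℕ) : Fin 2 := if n = 0 then 1 else 0

open Classical in
/-- Digits of `y` with forced digits on `A`. -/
noncomputable def md (A : Set ℕ) (y : ℝ) (n : ℕ) : Fin 2 := if n ∈ A then c n else Real.digits y 2 n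

/-- The modified point. -/
noncomputable def X (A : Set ℕ) (y : ℝ) : ℝ := Real.ofDigits (md A y)

theorem measurable_X (A : Set ℕ) : Measurable (X A) := by
  classical
  unfold X
  refine Real.continuous_ofDigits.measurable.comp ?_
  rw [measurable_pi_iff]
  intro n
  unfold md
  by_cases h : n ∈ A
  · simp only [h, if_true]
    exact measurable_const
  · simp only [h, if_false]
    unfold Real.digits
    have h1 : Measurable fun y : ℝ => ⌊y * (2 : ℕ) ^ (n + 1)⌋₊ :=
      Nat.measurable_floor.comp (measurable_id.mul_const _)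
    exact (measurable_of_countable (fun m : ℕ => Fin.ofNat 2 m)).comp h1

theorem X_mem (A : Set ℕ) (y : ℝ) : X A y ∈ Icc (0 : ℝ) 1 :=
  ⟨Real.ofDigits_nonneg _, Real.ofDigits_le_one _⟩

/-- Two modifications agreeing below `n` give close points. -/
theorem X_close (A B : Set ℕ) (n : ℕ) (h : ∀ i < n, i ∈ A ↔ i ∈ B) (y : ℝ) :
    |X A y - X B y| ≤ (2 ^ n : ℝ)⁻¹ := by
  have := Real.abs_ofDigits_sub_ofDigits_le (b := 2) (x := md A y) (y := md B y) (n := n) (by
    intro i hi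
    unfold md
    by_cases h1 : i ∈ A
    · rw [if_pos h1, if_pos ((h i hi).mp h1)]
    · rw [if_neg h1, if_neg (fun h2 => h1 ((h i hi).mpr h2))])
  exact_mod_cast this

/-- The shift determined by the set `T` of positions in `F` with digit one. -/
noncomputable def sh (F T : Finset ℕ) : ℝ :=
  ∑ n ∈ F, (((c n : ℕ) : ℝ) - (if n ∈ T then 1 else 0)) * ((2 : ℝ) ^ (n + 1))⁻¹

theorem X_finset (F : Finset ℕ) (y : ℝ) (hy : y ∈ Ico (0 : ℝ) 1) :
    ∃ T ∈ F.powerset, X (F : Set ℕ) y = y + sh F T := by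
  classical
  refine ⟨F.filter fun n => Real.digits y 2 n = 1, Finset.mem_powerset.mpr (Finset.filter_subset _ _), ?_⟩
  have h1 : y = Real.ofDigits (Real.digits y 2) := (Real.ofDigits_digits (by norm_num) hy).symm
  have h2 : X (F : Set ℕ) y - y = sh F (F.filter fun n => Real.digits y 2 n = 1) := by
    have h3 : X (F : Set ℕ) y - y =
        Real.ofDigits (md (F : Set ℕ) y) - Real.ofDigits (Real.digits y 2) := by
      rw [← h1]
      rfl
    rw [h3]
    unfold Real.ofDigits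
    rw [← Summable.tsum_sub Real.summable_ofDigitsTerm Real.summable_ofDigitsTerm]
    rw [tsum_eq_sum (s := F)]
    · unfold sh
      refine Finset.sum_congr rfl fun n hn => ?_
      unfold Real.ofDigitsTerm md
      have hn' : n ∈ (F : Set ℕ) := hn
      rw [if_pos hn', ← sub_mul]
      congr 2
      by_cases h3 : Real.digits y 2 n = 1
      · rw [if_pos (Finset.mem_filter.mpr ⟨hn, h3⟩), h3]
        norm_num
      · have h5 : n ∉ F.filter fun n => Real.digits y 2 n = 1 :=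
          fun h4 => h3 (Finset.mem_filter.mp h4).2
        rw [if_neg h5]
        have h4 : Real.digits y 2 n = 0 := by omega
        rw [h4]
        norm_num
    · intro n hn
      unfold Real.ofDigitsTerm md
      have hn' : n ∉ (F : Set ℕ) := hn
      rw [if_neg hn', sub_self]
  linarith

/-- The doubling bound. -/
theorem measure_X_finset (F : Finset ℕ) (B : Set ℝ) :
    volume ({y | y ∈ Ico (0 : ℝ) 1 ∧ X (F : Set ℕ) y ∈ B}) ≤
      2 ^ F.card * volume (B ∩ Icc 0 1) := by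
  have h1 : {y | y ∈ Ico (0 : ℝ) 1 ∧ X (F : Set ℕ) y ∈ B} ⊆
      ⋃ T ∈ F.powerset, (fun y => y + sh F T) ⁻¹' (B ∩ Icc 0 1) := by
    rintro y ⟨hy, hyB⟩
    obtain ⟨T, hT, hX⟩ := X_finset F y hy
    simp only [mem_iUnion]
    refine ⟨T, hT, ?_⟩
    rw [mem_preimage, ← hX]
    exact ⟨hyB, X_mem _ _⟩
  refine (measure_mono h1).trans ((measure_biUnion_finset_le _ _).trans ?_)
  have h2 : ∀ T ∈ F.powerset, volume ((fun y => y + sh F T) ⁻¹' (B ∩ Icc 0 1)) =
      volume (B ∩ Icc 0 1) := fun T _ => measure_preimage_add_right _ _ _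
  rw [Finset.sum_congr rfl h2, Finset.sum_const, Finset.card_powerset, nsmul_eq_mul]
  push_cast
  exact le_refl _

theorem measure_X_finset' (F : Finset ℕ) (B : Set ℝ) (hB : MeasurableSet B) :
    volume ({y | y ∈ Ico (0 : ℝ) 1 ∧ X (F : Set ℕ) y ∈ B}) ≤ 2 ^ F.card * lam B := by
  refine (measure_X_finset F B).trans (mul_le_mul' le_rfl ?_)
  unfold lam
  rw [Measure.restrict_apply hB]
  refine measure_mono (inter_subset_inter_right _ ?_)
  intro x hx
  exact ⟨by linarith [hx.1], by linarith [hx.2]⟩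

/-- The Weyl sums at close points. -/
theorem geom_le (b : ℕ) (hb : 2 ≤ b) (M : ℕ) : ∑ j ∈ Finset.range M, (b : ℝ) ^ j ≤ (b : ℝ) ^ M := by
  have hb2 : (2 : ℝ) ≤ b := by exact_mod_cast hb
  induction M with
  | zero => simp
  | succ M ih =>
    rw [Finset.sum_range_succ, pow_succ]
    have : (0 : ℝ) ≤ (b : ℝ) ^ M := by positivity
    nlinarith

theorem ee_lip (x y : ℝ) : ‖ee x - ee y‖ ≤ 7 * |x - y| := by
  have h1 : ee x - ee y = ee y * (ee (x - y) - 1) := by
    rw [mul_sub, mul_one, ← ee_add]; congr 2; ring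
  have h2 : ee (x - y) = Complex.exp (Complex.I * ((2 * Real.pi * (x - y) : ℝ) : ℂ)) := by
    unfold ee
    congr 1
    push_cast; ring
  rw [h1, norm_mul, ee_norm, one_mul, h2]
  refine (Real.norm_exp_I_mul_ofReal_sub_one_le).trans ?_
  rw [Real.norm_eq_abs, abs_mul, abs_of_pos (by positivity : 0 < 2 * Real.pi)]
  have h3 := Real.pi_lt_d2
  have h4 := abs_nonneg (x - y)
  nlinarith

theorem S_close (b h M : ℕ) (hb : 2 ≤ b) (ξ α : ℝ) :
    ‖S b h M ξ‖ ≤ ‖S b h M α‖ + 7 * h * (|ξ - α| * (b : ℝ) ^ M) := by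
  have h1 : ‖S b h M ξ - S b h M α‖ ≤ 7 * h * (|ξ - α| * (b : ℝ) ^ M) := by
    unfold S
    rw [← Finset.sum_sub_distrib]
    refine (norm_sum_le _ _).trans ?_
    calc ∑ j ∈ Finset.range M, ‖ee (h * (ξ * (b : ℝ) ^ j)) - ee (h * (α * (b : ℝ) ^ j))‖
        ≤ ∑ j ∈ Finset.range M, 7 * h * |ξ - α| * (b : ℝ) ^ j := by
          refine Finset.sum_le_sum fun j _ => ?_
          refine (ee_lip _ _).trans (le_of_eq ?_)
          have e : (h : ℝ) * (ξ * (b : ℝ) ^ j) - h * (α * (b : ℝ) ^ j) =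
              (h * (b : ℝ) ^ j) * (ξ - α) := by ring
          rw [e, abs_mul, abs_of_nonneg (by positivity : (0 : ℝ) ≤ h * (b : ℝ) ^ j)]
          ring
      _ = 7 * h * |ξ - α| * ∑ j ∈ Finset.range M, (b : ℝ) ^ j := by rw [Finset.mul_sum]
      _ ≤ 7 * h * |ξ - α| * (b : ℝ) ^ M := by
          gcongr
          exact geom_le b hb M
      _ = _ := by ring
  have h2 := norm_sub_norm_le (S b h M ξ) (S b h M α)
  linarith

section Seq

variable (nn : ℕ → ℕ)

/-- The first `k + 1` forced positions. -/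
def Fk (k : ℕ) : Finset ℕ := (Finset.range (k + 1)).image nn

theorem card_Fk (k : ℕ) : (Fk nn k).card ≤ k + 1 := by
  unfold Fk
  refine Finset.card_image_le.trans ?_
  rw [Finset.card_range]

variable {nn}

theorem X_Fk_close (hmono : StrictMono nn) (k : ℕ) (y : ℝ) :
    |X (range nn) y - X (Fk nn k : Set ℕ) y| ≤ (2 ^ nn (k + 1) : ℝ)⁻¹ := by
  apply X_close
  intro i hi
  constructor
  · rintro ⟨l, rfl⟩
    have hl : l < k + 1 := hmono.lt_iff_lt.mp hi
    unfold Fk
    rw [Finset.coe_image]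
    exact ⟨l, by simpa using hl, rfl⟩
  · intro h
    unfold Fk at h
    rw [Finset.coe_image] at h
    obtain ⟨l, _, rfl⟩ := h
    exact ⟨l, rfl⟩

/-- The good set. -/
def Good (nn : ℕ → ℕ) (N₀ : ℕ → ℕ) : Set ℝ :=
  {y | y ∈ Ico (0 : ℝ) 1 ∧ ∀ k, X (Fk nn (k + 1) : Set ℕ) y ∉ Bad k (N₀ k)}

theorem Good_pos (N₀ : ℕ → ℕ) (hN₀ : ∀ k, lam (Bad k (N₀ k)) ≤ ENNReal.ofReal ((1 / 4) ^ (k + 2))) :
    0 < volume (Good nn N₀) := by
  have h1 : Ico (0 : ℝ) 1 ⊆ Good nn N₀ ∪
      ⋃ k, {y | y ∈ Ico (0 : ℝ) 1 ∧ X (Fk nn (k + 1) : Set ℕ) y ∈ Bad k (N₀ k)} := by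
    intro y hy
    by_cases h : ∀ k, X (Fk nn (k + 1) : Set ℕ) y ∉ Bad k (N₀ k)
    · exact Or.inl ⟨hy, h⟩
    · push Not at h
      obtain ⟨k, hk⟩ := h
      exact Or.inr (mem_iUnion.mpr ⟨k, hy, hk⟩)
  have h2 : ∀ k, volume {y | y ∈ Ico (0 : ℝ) 1 ∧ X (Fk nn (k + 1) : Set ℕ) y ∈ Bad k (N₀ k)} ≤
      ENNReal.ofReal ((1 / 2) ^ (k + 2)) := by
    intro k
    refine (measure_X_finset' _ _ (measurableSet_Bad _ _)).trans ?_
    calc (2 : ENNReal) ^ (Fk nn (k + 1)).card * lam (Bad k (N₀ k))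
        ≤ 2 ^ (k + 2) * ENNReal.ofReal ((1 / 4) ^ (k + 2)) := by
          refine mul_le_mul' ?_ (hN₀ k)
          exact pow_le_pow_right₀ (by norm_num) (card_Fk nn (k + 1))
      _ = ENNReal.ofReal ((1 / 2) ^ (k + 2)) := by
          rw [show (2 : ENNReal) ^ (k + 2) = ENNReal.ofReal (2 ^ (k + 2)) by
            rw [ENNReal.ofReal_pow (by norm_num)]; norm_num]
          rw [← ENNReal.ofReal_mul (by positivity), ← mul_pow]
          norm_num
  have h3 : volume (⋃ k, {y | y ∈ Ico (0 : ℝ) 1 ∧ X (Fk nn (k + 1) : Set ℕ) y ∈ Bad k (N₀ k)}) ≤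
      ENNReal.ofReal (1 / 2) := by
    refine (measure_iUnion_le _).trans ((ENNReal.tsum_le_tsum h2).trans ?_)
    rw [← ENNReal.ofReal_tsum_of_nonneg (fun k => by positivity)]
    · apply ENNReal.ofReal_le_ofReal
      have h4 : ∀ k : ℕ, ((1 : ℝ) / 2) ^ (k + 2) = (1 / 4) * (1 / 2) ^ k := by
        intro k
        rw [pow_add]
        ring
      simp_rw [h4]
      rw [tsum_mul_left, tsum_geometric_of_lt_one (by norm_num) (by norm_num)]
      norm_num
    · have := (summable_nat_add_iff 2).mpr (summable_geometric_of_lt_one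
        (by norm_num : (0 : ℝ) ≤ 1 / 2) (by norm_num))
      exact this
  have h5 := (measure_mono (μ := volume) h1).trans (measure_union_le _ _)
  rw [Real.volume_Ico] at h5
  by_contra h6
  have h7 : volume (Good nn N₀) = 0 := by
    rcases eq_or_ne (volume (Good nn N₀)) 0 with h | h
    · exact h
    · exact absurd (pos_iff_ne_zero.mpr h) h6
  rw [h7, zero_add] at h5
  have h8 := h5.trans h3
  rw [ENNReal.ofReal_le_ofReal_iff (by norm_num)] at h8
  norm_num at h8

/-- Good points are normal. -/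
theorem Good_normal (hmono : StrictMono nn) (N₀ : ℕ → ℕ) (hN₀ : StrictMono N₀)
    (hgrow : ∀ k, (k + 2) * N₀ (k + 1) ≤ nn (k + 2)) (y : ℝ) (hy : y ∈ Good nn N₀)
    (b h : ℕ) (hb : 2 ≤ b) (hh : 1 ≤ h) :
    Tendsto (fun N : ℕ => ‖S b h N (X (range nn) y)‖ / N) atTop (𝓝 0) := by
  rw [Metric.tendsto_atTop]
  intro ε hε
  obtain ⟨k₀, hk₀⟩ := exists_nat_gt (2 / ε)
  obtain ⟨M₀, hM₀⟩ := exists_nat_gt (2 * (7 * h) / ε)
  set k₁ := max k₀ (max b h) with hk₁
  refine ⟨max (N₀ k₁) (max M₀ 1), fun N hN => ?_⟩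
  have hN1 : N₀ k₁ ≤ N := (le_max_left _ _).trans hN
  have hN2 : M₀ ≤ N := ((le_max_left _ _).trans (le_max_right _ _)).trans hN
  have hN3 : 1 ≤ N := ((le_max_right _ _).trans (le_max_right _ _)).trans hN
  have hNr : (0 : ℝ) < N := by exact_mod_cast hN3
  -- the stage of `N`
  obtain ⟨k, hk1, hk2⟩ : ∃ k, N₀ k ≤ N ∧ N < N₀ (k + 1) := by
    have hex : ∃ k, N < N₀ k := ⟨N + 1, lt_of_lt_of_le (Nat.lt_succ_self N) (hN₀.id_le (N + 1))⟩
    classical
    have h0 : Nat.find hex ≠ 0 := by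
      intro h0
      have h1 := Nat.find_spec hex
      rw [h0] at h1
      have h2 : N₀ 0 ≤ N₀ k₁ := hN₀.monotone (Nat.zero_le _)
      omega
    obtain ⟨k, hk⟩ := Nat.exists_eq_succ_of_ne_zero h0
    refine ⟨k, ?_, ?_⟩
    · have := Nat.find_min hex (m := k) (by omega)
      omega
    · have := Nat.find_spec hex
      rw [hk] at this
      exact this
  have hk : k₁ ≤ k := by
    by_contra hlt
    have h1 : N₀ (k + 1) ≤ N₀ k₁ := hN₀.monotone (by omega)
    omega
  have hkb : b ≤ k := ((le_max_left _ _).trans (le_max_right _ _)).trans hk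
  have hkh : h ≤ k := ((le_max_right _ _).trans (le_max_right _ _)).trans hk
  have hkk : k₀ ≤ k := (le_max_left _ _).trans hk
  -- the bound at the approximating point
  have h1 : ‖S b h N (X (Fk nn (k + 1) : Set ℕ) y)‖ ≤ (N : ℝ) / (k + 1) := by
    by_contra hlt
    rw [not_le] at hlt
    apply hy.2 k
    unfold Bad
    simp only [mem_iUnion]
    exact ⟨b, Finset.mem_Icc.mpr ⟨hb, by omega⟩, h, Finset.mem_Icc.mpr ⟨hh, by omega⟩, N, hk1, hlt⟩
  have h2 := S_close b h N hb (X (range nn) y) (X (Fk nn (k + 1) : Set ℕ) y)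
  have h3 : |X (range nn) y - X (Fk nn (k + 1) : Set ℕ) y| * (b : ℝ) ^ N ≤ 1 := by
    have h4 := X_Fk_close hmono (k + 1) y
    have h5 : (b : ℝ) ^ N ≤ 2 ^ nn (k + 2) := by
      have h6 : b ^ N ≤ 2 ^ nn (k + 2) := by
        calc b ^ N ≤ (2 ^ b) ^ N := Nat.pow_le_pow_left (Nat.lt_two_pow_self).le N
          _ = 2 ^ (b * N) := by rw [pow_mul]
          _ ≤ 2 ^ nn (k + 2) := by
            apply Nat.pow_le_pow_right (by norm_num)
            calc b * N ≤ (k + 2) * N₀ (k + 1) := Nat.mul_le_mul (by omega) hk2.le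
              _ ≤ nn (k + 2) := hgrow k
      exact_mod_cast h6
    calc |X (range nn) y - X (Fk nn (k + 1) : Set ℕ) y| * (b : ℝ) ^ N
        ≤ (2 ^ nn (k + 1 + 1) : ℝ)⁻¹ * 2 ^ nn (k + 2) :=
          mul_le_mul h4 h5 (by positivity) (by positivity)
      _ = 1 := inv_mul_cancel₀ (by positivity)
  have h4 : ‖S b h N (X (range nn) y)‖ ≤ (N : ℝ) / (k + 1) + 7 * h := by
    have h5 : 7 * (h : ℝ) * (|X (range nn) y - X (Fk nn (k + 1) : Set ℕ) y| * (b : ℝ) ^ N) ≤
        7 * h * 1 := mul_le_mul_of_nonneg_left h3 (by positivity)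
    linarith
  rw [dist_zero_right, Real.norm_of_nonneg (by positivity), div_lt_iff₀ hNr]
  have h5 : (N : ℝ) / (k + 1) < ε / 2 * N := by
    have h6 : (2 : ℝ) / ε < k + 1 := by
      have : (k₀ : ℝ) ≤ k := by exact_mod_cast hkk
      linarith
    rw [div_lt_iff₀ hε] at h6
    rw [div_lt_iff₀ (by positivity)]
    nlinarith
  have h6 : 7 * (h : ℝ) < ε / 2 * N := by
    have h7 : 2 * (7 * (h : ℝ)) / ε < N := hM₀.trans_le (by exact_mod_cast hN2)
    rw [div_lt_iff₀ hε] at h7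
    linarith
  linarith

end Seq

end Pool.Agent.X91.NU
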