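import Pool.Agent.H493R3.Digits

/-!
Almost every real number (in the interval `[-1, 2)`) is normal: second moments of Weyl sums.
-/

set_option autoImplicit false

open MeasureTheory Filter Topology Set

namespace Pool.Agent.X91.NU

open Pool.Agent.H493R3 (ee ee_norm ee_add ee_neg ee_int)

/-- Weyl sums. -/
noncomputable def S (b h N : ℕ) (x : ℝ) : ℂ := ∑ j ∈ Finset.range N, ee (h * (x * (b : ℝ) ^ j))

theorem ee_cont : Continuous ee := by
  unfold ee
  fun_prop

theorem S_cont (b h N : ℕ) : Continuous (S b h N) := by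
  unfold S
  refine continuous_finsetSum _ fun j _ => ?_
  exact ee_cont.comp (by fun_prop)

theorem S_norm_le (b h N : ℕ) (x : ℝ) : ‖S b h N x‖ ≤ N := by
  unfold S
  refine (norm_sum_le _ _).trans ?_
  simp [ee_norm]

theorem integral_ee (k : ℤ) (hk : k ≠ 0) : ∫ x in (-1 : ℝ)..2, ee (k * x) = 0 := by
  have hc : (2 * Real.pi * k * Complex.I : ℂ) ≠ 0 := by
    simp [hk, Real.pi_ne_zero]
  have h1 : ∀ x : ℝ, ee (k * x) = Complex.exp ((2 * Real.pi * k * Complex.I) * x) := by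
    intro x
    unfold ee
    congr 1
    push_cast
    ring
  simp_rw [h1]
  rw [integral_exp_mul_complex hc]
  have h2 : Complex.exp ((2 * Real.pi * k * Complex.I) * ((2 : ℝ) : ℂ)) = 1 := by
    rw [← h1, show (k : ℝ) * 2 = ((2 * k : ℤ) : ℝ) by push_cast; ring, ee_int]
  have h3 : Complex.exp ((2 * Real.pi * k * Complex.I) * ((-1 : ℝ) : ℂ)) = 1 := by
    rw [← h1, show (k : ℝ) * (-1) = ((-k : ℤ) : ℝ) by push_cast; ring, ee_int]
  rw [h2, h3, sub_self, zero_div]

theorem normSq_S (b h N : ℕ) (x : ℝ) : ((‖S b h N x‖ ^ 2 : ℝ) : ℂ) =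
    ∑ i ∈ Finset.range N, ∑ j ∈ Finset.range N,
      ee ((((h : ℤ) * ((b : ℤ) ^ i - (b : ℤ) ^ j) : ℤ) : ℝ) * x) := by
  have h1 : ((‖S b h N x‖ ^ 2 : ℝ) : ℂ) = S b h N x * (starRingEnd ℂ) (S b h N x) := by
    rw [Complex.mul_conj, Complex.normSq_eq_norm_sq]
  rw [h1]
  unfold S
  rw [map_sum, Finset.sum_mul_sum]
  refine Finset.sum_congr rfl fun i _ => Finset.sum_congr rfl fun j _ => ?_
  rw [← ee_neg, ← ee_add]
  congr 1
  push_cast
  ring

theorem second_moment (b h N : ℕ) (hb : 2 ≤ b) (hh : 1 ≤ h) :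
    ∫ x in (-1 : ℝ)..2, ‖S b h N x‖ ^ 2 = 3 * N := by
  have hc : ∀ i j : ℕ, Continuous fun x : ℝ =>
      ee ((((h : ℤ) * ((b : ℤ) ^ i - (b : ℤ) ^ j) : ℤ) : ℝ) * x) := fun i j =>
    ee_cont.comp (by fun_prop)
  have h1 : ((∫ x in (-1 : ℝ)..2, ‖S b h N x‖ ^ 2 : ℝ) : ℂ) = ((3 * N : ℝ) : ℂ) := by
    rw [← intervalIntegral.integral_ofReal]
    simp_rw [normSq_S]
    rw [intervalIntegral.integral_finsetSum]
    · have h2 : ∀ i ∈ Finset.range N, ∫ x in (-1 : ℝ)..2, ∑ j ∈ Finset.range N,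
          ee ((((h : ℤ) * ((b : ℤ) ^ i - (b : ℤ) ^ j) : ℤ) : ℝ) * x) = 3 := by
        intro i hi
        rw [intervalIntegral.integral_finsetSum]
        · rw [Finset.sum_eq_single i]
          · rw [sub_self, mul_zero]
            simp only [Int.cast_zero, zero_mul]
            have : ee 0 = 1 := by
              have := ee_int 0
              simpa using this
            rw [this, intervalIntegral.integral_const]
            norm_num
          · intro j _ hij
            apply integral_ee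
            apply mul_ne_zero
            · exact_mod_cast (by omega : h ≠ 0)
            · intro h0
              have h3 : (b : ℤ) ^ i = (b : ℤ) ^ j := sub_eq_zero.mp h0
              have h4 : b ^ i = b ^ j := by exact_mod_cast h3
              exact hij (Nat.pow_right_injective hb h4).symm
          · intro h0
            exact absurd hi h0
        · intro j _
          exact (hc i j).intervalIntegrable _ _
      rw [Finset.sum_congr rfl h2]
      simp
      ring
    · intro i _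
      exact (continuous_finsetSum _ fun j _ => hc i j).intervalIntegrable _ _
  exact_mod_cast h1

/-- The reference measure: Lebesgue measure on `[-1, 2)`. -/
noncomputable def lam : Measure ℝ := volume.restrict (Ioc (-1) 2)

instance : IsFiniteMeasure lam := by
  unfold lam
  refine ⟨?_⟩
  rw [Measure.restrict_apply_univ, Real.volume_Ioc]
  exact ENNReal.ofReal_lt_top

theorem lintegral_S (b h N : ℕ) (hb : 2 ≤ b) (hh : 1 ≤ h) :
    ∫⁻ x, ENNReal.ofReal (‖S b h N x‖ ^ 2) ∂lam = ENNReal.ofReal (3 * N) := by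
  rw [← second_moment b h N hb hh, intervalIntegral.integral_of_le (by norm_num)]
  rw [ofReal_integral_eq_lintegral_ofReal]
  · rfl
  · exact (((S_cont b h N).norm.pow 2).integrableOn_Ioc)
  · exact Filter.Eventually.of_forall fun x => by positivity

/-- Convergence along squares. -/
theorem ae_squares (b h : ℕ) (hb : 2 ≤ b) (hh : 1 ≤ h) :
    ∀ᵐ x ∂lam, Tendsto (fun l : ℕ => ‖S b h ((l + 1) ^ 2) x‖ ^ 2 / ((l + 1 : ℕ) : ℝ) ^ 4) atTop
      (𝓝 0) := by
  have hmeas : ∀ l : ℕ, Measurable fun x =>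
      ENNReal.ofReal (‖S b h ((l + 1) ^ 2) x‖ ^ 2 / ((l + 1 : ℕ) : ℝ) ^ 4) := by
    intro l
    refine ENNReal.measurable_ofReal.comp ?_
    exact (((S_cont b h _).norm.pow 2).div_const _).measurable
  have h1 : ∫⁻ x, ∑' l : ℕ, ENNReal.ofReal (‖S b h ((l + 1) ^ 2) x‖ ^ 2 / ((l + 1 : ℕ) : ℝ) ^ 4) ∂lam
      ≠ ⊤ := by
    rw [lintegral_tsum fun l => (hmeas l).aemeasurable]
    have h2 : ∀ l : ℕ, ∫⁻ x, ENNReal.ofReal (‖S b h ((l + 1) ^ 2) x‖ ^ 2 / ((l + 1 : ℕ) : ℝ) ^ 4) ∂lam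
        = ENNReal.ofReal (3 / ((l + 1 : ℕ) : ℝ) ^ 2) := by
      intro l
      have hpos : (0 : ℝ) < ((l + 1 : ℕ) : ℝ) := by positivity
      have h3 : ∀ x, ENNReal.ofReal (‖S b h ((l + 1) ^ 2) x‖ ^ 2 / ((l + 1 : ℕ) : ℝ) ^ 4) =
          ENNReal.ofReal (‖S b h ((l + 1) ^ 2) x‖ ^ 2) * ENNReal.ofReal (1 / ((l + 1 : ℕ) : ℝ) ^ 4) := by
        intro x
        rw [← ENNReal.ofReal_mul (by positivity)]
        congr 1
        ring
      simp_rw [h3]
      have hm : Measurable fun x => ENNReal.ofReal (‖S b h ((l + 1) ^ 2) x‖ ^ 2) :=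
        ENNReal.measurable_ofReal.comp ((S_cont b h _).norm.pow 2).measurable
      rw [lintegral_mul_const _ hm, lintegral_S b h _ hb hh, ← ENNReal.ofReal_mul (by positivity)]
      congr 1
      push_cast
      field_simp
    simp_rw [h2]
    have h4 : Summable fun l : ℕ => 3 / ((l + 1 : ℕ) : ℝ) ^ 2 := by
      have h5 : Summable fun l : ℕ => 3 / ((l : ℕ) : ℝ) ^ 2 := by
        have := (Real.summable_one_div_nat_pow.mpr (by norm_num : 1 < 2)).mul_left 3
        refine this.congr fun l => ?_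
        ring
      exact (summable_nat_add_iff 1).mpr h5
    exact h4.tsum_ofReal_ne_top
  have h6 := ae_lt_top' (AEMeasurable.tsum fun l => (hmeas l).aemeasurable) h1
  filter_upwards [h6] with x hx
  have h7 := ENNReal.tendsto_atTop_zero_of_tsum_ne_top hx.ne
  have h8 := (ENNReal.tendsto_toReal ENNReal.zero_ne_top).comp h7
  rw [ENNReal.toReal_zero] at h8
  refine h8.congr fun l => ?_
  simp only [Function.comp]
  rw [ENNReal.toReal_ofReal (by positivity)]

/-- Adding terms. -/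
theorem S_diff (b h N M : ℕ) (x : ℝ) (hNM : N ≤ M) : ‖S b h M x‖ ≤ ‖S b h N x‖ + (M - N : ℕ) := by
  have h1 : S b h M x = S b h N x + ∑ j ∈ Finset.Ico N M, ee (h * (x * (b : ℝ) ^ j)) := by
    unfold S
    rw [Finset.sum_range_add_sum_Ico _ hNM]
  rw [h1]
  refine (norm_add_le _ _).trans ?_
  refine add_le_add_right ((norm_sum_le _ _).trans ?_) _
  simp [ee_norm]

/-- Almost every number is normal. -/
theorem ae_normal (b h : ℕ) (hb : 2 ≤ b) (hh : 1 ≤ h) :
    ∀ᵐ x ∂lam, Tendsto (fun N : ℕ => ‖S b h N x‖ / N) atTop (𝓝 0) := by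
  filter_upwards [ae_squares b h hb hh] with x hx
  have h1 : Tendsto (fun l : ℕ => ‖S b h ((l + 1) ^ 2) x‖ / ((l + 1 : ℕ) : ℝ) ^ 2) atTop (𝓝 0) := by
    have h2 := hx.sqrt
    rw [Real.sqrt_zero] at h2
    refine h2.congr fun l => ?_
    rw [show ‖S b h ((l + 1) ^ 2) x‖ ^ 2 / ((l + 1 : ℕ) : ℝ) ^ 4 =
      (‖S b h ((l + 1) ^ 2) x‖ / ((l + 1 : ℕ) : ℝ) ^ 2) ^ 2 by ring]
    exact Real.sqrt_sq (by positivity)
  have h3 : Tendsto (fun l : ℕ => ‖S b h (l ^ 2) x‖ / (l : ℝ) ^ 2) atTop (𝓝 0) :=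
    (tendsto_add_atTop_iff_nat (f := fun l : ℕ => ‖S b h (l ^ 2) x‖ / (l : ℝ) ^ 2) 1).mp h1
  have hsq : Tendsto Nat.sqrt atTop atTop := by
    refine tendsto_atTop.mpr fun B => ?_
    filter_upwards [eventually_ge_atTop (B * B)] with N hN
    exact Nat.le_sqrt.mpr hN
  have h4 := h3.comp hsq
  have h5 : Tendsto (fun N : ℕ => 2 / ((Nat.sqrt N : ℕ) : ℝ)) atTop (𝓝 0) :=
    (tendsto_const_div_atTop_nhds_zero_nat 2).comp hsq
  have h6 := h4.add h5
  rw [add_zero] at h6
  refine squeeze_zero' (Eventually.of_forall fun N => by positivity) ?_ h6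
  filter_upwards [eventually_ge_atTop 1] with N hN
  set l := Nat.sqrt N with hl
  have hl1 : 1 ≤ l := Nat.le_sqrt.mpr hN
  have hl2 : l ^ 2 ≤ N := Nat.sqrt_le' N
  have hl3 : N < (l + 1) ^ 2 := Nat.lt_succ_sqrt' N
  have hlr : (1 : ℝ) ≤ l := by exact_mod_cast hl1
  have hl2r : (l : ℝ) ^ 2 ≤ N := by exact_mod_cast hl2
  have hNr : (0 : ℝ) < N := by exact_mod_cast hN
  have h7 := S_diff b h (l ^ 2) N x hl2
  have h8 : ((N - l ^ 2 : ℕ) : ℝ) ≤ 2 * l := by
    have : N - l ^ 2 ≤ 2 * l := by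
      have : (l + 1) ^ 2 = l ^ 2 + 2 * l + 1 := by ring
      omega
    exact_mod_cast this
  simp only [Function.comp]
  calc ‖S b h N x‖ / N ≤ (‖S b h (l ^ 2) x‖ + 2 * l) / N := by
        apply div_le_div_of_nonneg_right _ hNr.le
        linarith
    _ ≤ (‖S b h (l ^ 2) x‖ + 2 * l) / (l : ℝ) ^ 2 := by
        apply div_le_div_of_nonneg_left (by positivity) (by positivity) hl2r
    _ = ‖S b h (l ^ 2) x‖ / (l : ℝ) ^ 2 + 2 / l := by
        field_simp

/-- The bad sets. -/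
def Bad (k N₀ : ℕ) : Set ℝ :=
  ⋃ b ∈ Finset.Icc 2 (k + 2), ⋃ h ∈ Finset.Icc 1 (k + 1), ⋃ N ∈ Set.Ici N₀,
    {x | (N : ℝ) / (k + 1) < ‖S b h N x‖}

theorem measurableSet_Bad (k N₀ : ℕ) : MeasurableSet (Bad k N₀) := by
  unfold Bad
  refine Finset.measurableSet_biUnion _ fun b _ => Finset.measurableSet_biUnion _ fun h _ => ?_
  refine MeasurableSet.biUnion (Set.to_countable _) fun N _ => ?_
  exact measurableSet_lt measurable_const (S_cont b h N).norm.measurable

theorem Bad_anti (k : ℕ) : Antitone (Bad k) := by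
  intro N₀ N₁ h
  unfold Bad
  refine iUnion₂_mono fun b _ => iUnion₂_mono fun h' _ => ?_
  exact biUnion_subset_biUnion_left (Ici_subset_Ici.mpr h)

theorem Bad_tendsto (k : ℕ) : Tendsto (fun N₀ => lam (Bad k N₀)) atTop (𝓝 0) := by
  have h1 := tendsto_measure_iInter_atTop (μ := lam) (s := Bad k)
    (fun n => (measurableSet_Bad k n).nullMeasurableSet) (Bad_anti k) ⟨0, measure_ne_top _ _⟩
  have h2 : lam (⋂ n, Bad k n) = 0 := by
    have h3 : ∀ᵐ x ∂lam, ∀ b ∈ Finset.Icc 2 (k + 2), ∀ h ∈ Finset.Icc 1 (k + 1),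
        Tendsto (fun N : ℕ => ‖S b h N x‖ / N) atTop (𝓝 0) := by
      rw [Finset.eventually_all]
      intro b hb
      rw [Finset.eventually_all]
      intro h hh
      rw [Finset.mem_Icc] at hb hh
      exact ae_normal b h hb.1 hh.1
    have h4 : ∀ᵐ x ∂lam, x ∉ ⋂ n, Bad k n := by
      filter_upwards [h3] with x hx hxb
      have h5 : ∀ᶠ N : ℕ in atTop, ∀ b ∈ Finset.Icc 2 (k + 2), ∀ h ∈ Finset.Icc 1 (k + 1),
          ‖S b h N x‖ ≤ (N : ℝ) / (k + 1) := by
        rw [Finset.eventually_all]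
        intro b hb
        rw [Finset.eventually_all]
        intro h hh
        have h6 := (hx b hb h hh).eventually (gt_mem_nhds (show (0 : ℝ) < 1 / (k + 1) by positivity))
        filter_upwards [h6, eventually_ge_atTop 1] with N h7 hN
        have hNr : (0 : ℝ) < N := by exact_mod_cast hN
        rw [div_lt_iff₀ hNr] at h7
        refine h7.le.trans (le_of_eq ?_)
        ring
      obtain ⟨N₀, hN₀⟩ := eventually_atTop.mp h5
      rw [mem_iInter] at hxb
      have h8 := hxb N₀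
      unfold Bad at h8
      simp only [mem_iUnion] at h8
      obtain ⟨b, hb, h, hh, N, hN, h9⟩ := h8
      have h10 := hN₀ N hN b hb h hh
      have h11 : (N : ℝ) / (k + 1) < ‖S b h N x‖ := h9
      linarith
    exact measure_eq_zero_iff_ae_notMem.mpr h4
  rw [h2] at h1
  exact h1

/-- The stages. -/
theorem exists_stage : ∃ N₀ : ℕ → ℕ, StrictMono N₀ ∧
    ∀ k, lam (Bad k (N₀ k)) ≤ ENNReal.ofReal ((1 / 4) ^ (k + 2)) := by
  have h1 : ∀ k, ∀ᶠ n in atTop, lam (Bad k n) ≤ ENNReal.ofReal ((1 / 4) ^ (k + 2)) := by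
    intro k
    have hpos : (0 : ENNReal) < ENNReal.ofReal ((1 / 4) ^ (k + 2)) :=
      ENNReal.ofReal_pos.mpr (by positivity)
    filter_upwards [(Bad_tendsto k).eventually (gt_mem_nhds hpos)] with n hn
    exact hn.le
  exact extraction_forall_of_eventually h1

end Pool.Agent.X91.NU
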