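import Pool.Agent.X91.NU.Dig

/-!
Mass distribution for the law of the random point.
-/

set_option autoImplicit false

open MeasureTheory Filter Topology Set
open scoped ENNReal

namespace Pool.Agent.X91.NU

/-- The law of the random point. -/
noncomputable def law (nn : ℕ → ℕ) : Measure ℝ :=
  Measure.map (X (range nn)) (volume.restrict (Ico (0 : ℝ) 1))

variable {nn : ℕ → ℕ}

theorem law_interval (hmono : StrictMono nn) (φ : ℝ → ℝ)
    (hφ : ∀ k, 1 ≤ k → ∀ r : ℝ, 0 < r → r < (2 ^ nn k : ℝ)⁻¹ → 2 ^ k * r ≤ φ r)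
    (x₀ r : ℝ) (hr : 0 < r) (hr1 : r < (2 ^ nn 1 : ℝ)⁻¹) :
    law nn (Icc (x₀ - r) (x₀ + r)) ≤ ENNReal.ofReal (8 * φ r) := by
  -- the stage of `r`
  obtain ⟨k, hk1, hk2, hk3⟩ : ∃ k, 1 ≤ k ∧ (2 ^ nn (k + 1) : ℝ)⁻¹ ≤ r ∧ r < (2 ^ nn k : ℝ)⁻¹ := by
    have hex : ∃ k, (2 ^ nn k : ℝ)⁻¹ ≤ r := by
      obtain ⟨m, hm⟩ := exists_pow_lt_of_lt_one hr (by norm_num : (1 / 2 : ℝ) < 1)
      refine ⟨m, ?_⟩
      rw [← inv_pow]
      refine le_trans ?_ hm.le
      rw [one_div]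
      exact pow_le_pow_of_le_one (by norm_num) (by norm_num) (hmono.id_le m)
    classical
    have h0 := Nat.find_spec hex
    have hanti : ∀ i j, i ≤ j → (2 ^ nn j : ℝ)⁻¹ ≤ (2 ^ nn i : ℝ)⁻¹ := by
      intro i j hij
      apply inv_anti₀ (by positivity)
      exact pow_le_pow_right₀ (by norm_num) (hmono.monotone hij)
    have h1 : 1 < Nat.find hex := by
      by_contra hlt
      rw [not_lt] at hlt
      have := hanti _ _ hlt
      linarith
    refine ⟨Nat.find hex - 1, by omega, ?_, ?_⟩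
    · rw [show Nat.find hex - 1 + 1 = Nat.find hex by omega]
      exact h0
    · have := Nat.find_min hex (m := Nat.find hex - 1) (by omega)
      rw [not_le] at this
      exact this
  unfold law
  rw [Measure.map_apply (measurable_X _) measurableSet_Icc,
    Measure.restrict_apply (measurable_X _ measurableSet_Icc)]
  have hsub : X (range nn) ⁻¹' Icc (x₀ - r) (x₀ + r) ∩ Ico (0 : ℝ) 1 ⊆
      {y | y ∈ Ico (0 : ℝ) 1 ∧ X (Fk nn k : Set ℕ) y ∈ Icc (x₀ - 2 * r) (x₀ + 2 * r)} := by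
    rintro y ⟨hy1, hy2⟩
    refine ⟨hy2, ?_⟩
    have h1 := X_Fk_close hmono k y
    have h2 := abs_le.mp (h1.trans hk2)
    rw [mem_preimage] at hy1
    constructor
    · linarith [hy1.1, h2.2]
    · linarith [hy1.2, h2.1]
  refine (measure_mono hsub).trans ((measure_X_finset _ _).trans ?_)
  calc (2 : ℝ≥0∞) ^ (Fk nn k).card * volume (Icc (x₀ - 2 * r) (x₀ + 2 * r) ∩ Icc 0 1)
      ≤ 2 ^ (k + 1) * volume (Icc (x₀ - 2 * r) (x₀ + 2 * r)) := by
        refine mul_le_mul' ?_ (measure_mono inter_subset_left)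
        exact pow_le_pow_right₀ (by norm_num) (card_Fk nn k)
    _ = ENNReal.ofReal (2 ^ (k + 1) * (4 * r)) := by
        rw [Real.volume_Icc, ENNReal.ofReal_mul (by positivity),
          ENNReal.ofReal_pow (by norm_num), ENNReal.ofReal_ofNat]
        congr 2
        ring
    _ ≤ ENNReal.ofReal (8 * φ r) := by
        apply ENNReal.ofReal_le_ofReal
        have := hφ k hk1 r hr hk3
        rw [pow_succ]
        linarith

theorem law_le (hmono : StrictMono nn) (φ : ℝ → ℝ)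
    (hφ0 : Tendsto φ (𝓝[>] (0 : ℝ)) (𝓝 0))
    (hφ : ∀ k, 1 ≤ k → ∀ r : ℝ, 0 < r → r < (2 ^ nn k : ℝ)⁻¹ → 2 ^ k * r ≤ φ r) :
    (8 : ℝ≥0∞)⁻¹ • law nn ≤
      Measure.mkMetric (fun r : ℝ≥0∞ => ENNReal.ofReal (φ r.toReal)) := by
  have hpos : (0 : ℝ) < (2 ^ nn 1 : ℝ)⁻¹ := by positivity
  refine Measure.le_mkMetric _ _ (ENNReal.ofReal ((2 ^ nn 1 : ℝ)⁻¹ / 2))
    (ENNReal.ofReal_pos.mpr (by positivity)) ?_
  intro s hs
  rw [Measure.smul_apply, smul_eq_mul]
  have key : law nn s ≤ 8 * ENNReal.ofReal (φ (Metric.ediam s).toReal) ∨ law nn s = 0 := by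
    rcases s.eq_empty_or_nonempty with rfl | ⟨x₀, hx₀⟩
    · right
      exact measure_empty
    · have hfin : Metric.ediam s ≠ ⊤ := (hs.trans_lt ENNReal.ofReal_lt_top).ne
      have hsub : ∀ r, (Metric.ediam s).toReal ≤ r → s ⊆ Icc (x₀ - r) (x₀ + r) := by
        intro r hr x hx
        have h1 : edist x x₀ ≤ Metric.ediam s := Metric.edist_le_ediam_of_mem hx hx₀
        have h2 : dist x x₀ ≤ r := by
          rw [dist_edist]
          exact (ENNReal.toReal_mono hfin h1).trans hr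
        rw [Real.dist_eq, abs_le] at h2
        exact ⟨by linarith [h2.1], by linarith [h2.2]⟩
      have hsmall : (Metric.ediam s).toReal < (2 ^ nn 1 : ℝ)⁻¹ := by
        have := ENNReal.toReal_mono ENNReal.ofReal_ne_top hs
        rw [ENNReal.toReal_ofReal (by positivity)] at this
        linarith
      rcases (ENNReal.toReal_nonneg (a := Metric.ediam s)).eq_or_lt with h0 | h0
      · right
        have h1 : Tendsto (fun r => ENNReal.ofReal (8 * φ r)) (𝓝[>] (0 : ℝ)) (𝓝 0) := by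
          have h2 := ENNReal.tendsto_ofReal (hφ0.const_mul 8)
          rw [mul_zero, ENNReal.ofReal_zero] at h2
          exact h2
        have h2 : ∀ᶠ r in 𝓝[>] (0 : ℝ), law nn s ≤ ENNReal.ofReal (8 * φ r) := by
          have h3 : ∀ᶠ r : ℝ in 𝓝[>] 0, r < (2 ^ nn 1 : ℝ)⁻¹ :=
            (gt_mem_nhds hpos).filter_mono nhdsWithin_le_nhds
          filter_upwards [h3, self_mem_nhdsWithin] with r hr1 hr0
          have hr0' : 0 < r := hr0
          exact (measure_mono (hsub r (by rw [← h0]; exact hr0'.le))).trans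
            (law_interval hmono φ hφ x₀ r hr0' hr1)
        have h3 := ge_of_tendsto h1 h2
        exact le_antisymm h3 (zero_le)
      · left
        refine (measure_mono (hsub _ le_rfl)).trans
          ((law_interval hmono φ hφ x₀ _ h0 hsmall).trans ?_)
        rw [ENNReal.ofReal_mul (by norm_num)]
        norm_num
  rcases key with h | h
  · calc (8 : ℝ≥0∞)⁻¹ * law nn s ≤ 8⁻¹ * (8 * ENNReal.ofReal (φ (Metric.ediam s).toReal)) :=
          mul_le_mul' le_rfl h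
      _ = ENNReal.ofReal (φ (Metric.ediam s).toReal) := by
          rw [← mul_assoc, ENNReal.inv_mul_cancel (by norm_num) (by norm_num), one_mul]
  · rw [h, mul_zero]
    exact zero_le

theorem law_pos (N₀ : ℕ → ℕ) (hN₀ : ∀ k, lam (Bad k (N₀ k)) ≤ ENNReal.ofReal ((1 / 4) ^ (k + 2)))
    (s : Set ℝ) (hs : ∀ y ∈ Good nn N₀, X (range nn) y ∈ s) : 0 < law nn s := by
  have h1 := Good_pos (nn := nn) N₀ hN₀
  refine h1.trans_le ?_
  unfold law
  refine le_trans ?_ (Measure.le_map_apply (measurable_X _).aemeasurable s)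
  refine le_trans ?_ (Measure.le_restrict_apply _ _)
  refine measure_mono fun y hy => ⟨hs y hy, hy.1⟩

/-- Existence of a sparse sequence. -/
theorem exists_seq (φ : ℝ → ℝ) (hpos : ∀ r : ℝ, 0 < r → 0 < φ r)
    (hφ : Tendsto (fun r : ℝ => r / φ r) (𝓝[>] (0 : ℝ)) (𝓝 0)) (N₀ : ℕ → ℕ) :
    ∃ nn : ℕ → ℕ, StrictMono nn ∧ nn 0 = 0 ∧ (∀ k, (k + 2) * N₀ (k + 1) ≤ nn (k + 2)) ∧
      ∀ k, 1 ≤ k → ∀ r : ℝ, 0 < r → r < (2 ^ nn k : ℝ)⁻¹ → 2 ^ k * r ≤ φ r := by
  have h1 : ∀ k : ℕ, ∀ᶠ m in atTop, 1 ≤ m ∧ (k * N₀ (k - 1) ≤ m) ∧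
      ∀ r : ℝ, 0 < r → r < (2 ^ m : ℝ)⁻¹ → 2 ^ k * r ≤ φ r := by
    intro k
    have h2 := hφ.eventually (gt_mem_nhds (show (0 : ℝ) < (2 ^ k : ℝ)⁻¹ by positivity))
    rw [eventually_nhdsWithin_iff, Metric.eventually_nhds_iff] at h2
    obtain ⟨δ, hδ, h3⟩ := h2
    obtain ⟨m₀, hm₀⟩ := exists_pow_lt_of_lt_one hδ (by norm_num : (1 / 2 : ℝ) < 1)
    filter_upwards [eventually_ge_atTop 1, eventually_ge_atTop (k * N₀ (k - 1)),
      eventually_ge_atTop m₀] with m h4 h5 h6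
    refine ⟨h4, h5, fun r hr0 hr1 => ?_⟩
    have h7 : (2 ^ m : ℝ)⁻¹ ≤ (1 / 2) ^ m₀ := by
      rw [one_div, ← inv_pow]
      exact pow_le_pow_of_le_one (by norm_num) (by norm_num) h6
    have h8 : r / φ r < (2 ^ k : ℝ)⁻¹ := by
      apply h3
      · rw [Real.dist_eq, sub_zero, abs_of_pos hr0]
        linarith
      · exact hr0
    have h9 := hpos r hr0
    rw [div_lt_iff₀ h9, ← div_eq_inv_mul, lt_div_iff₀ (by positivity)] at h8
    linarith
  obtain ⟨ψ, hψ, h2⟩ := extraction_forall_of_eventually h1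
  refine ⟨fun k => if k = 0 then 0 else ψ k, ?_, by simp, ?_, ?_⟩
  · apply strictMono_nat_of_lt_succ
    intro k
    simp only [Nat.add_eq_zero_iff, one_ne_zero, and_false, if_false]
    by_cases hk : k = 0
    · rw [if_pos hk]
      have := (h2 (k + 1)).1
      omega
    · rw [if_neg hk]
      exact hψ (Nat.lt_succ_self k)
  · intro k
    have := (h2 (k + 2)).2.1
    simpa using this
  · intro k hk r hr0 hr1
    have hk0 : k ≠ 0 := by omega
    simp only [hk0, if_false] at hr1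
    exact (h2 k).2.2 r hr0 hr1

end Pool.Agent.X91.NU
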